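import Mathlib

set_option autoImplicit false

open Set Topology Filter

namespace Pool.Agent.Lib.MP_f722f0_gt

variable {α : Type*} [TopologicalSpace α]

/-- A cover of the space: open sets, union everything, the whole space not a member. -/
def IsCov (𝒰 : Set (Set α)) : Prop :=
  (∀ U ∈ 𝒰, IsOpen U) ∧ ⋃₀ 𝒰 = univ ∧ univ ∉ 𝒰

/-- Large covers: every point is in infinitely many members. -/
def IsLargeCov (𝒰 : Set (Set α)) : Prop :=
  IsCov 𝒰 ∧ ∀ x, {U ∈ 𝒰 | x ∈ U}.Infinite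

/-- The tau-covers. -/
def IsTauCov (𝒰 : Set (Set α)) : Prop :=
  IsLargeCov 𝒰 ∧ ∀ x y, {U ∈ 𝒰 | x ∈ U ∧ y ∉ U}.Finite ∨ {U ∈ 𝒰 | y ∈ U ∧ x ∉ U}.Finite

/-- The gamma-covers: infinite covers such that every point is in all but finitely many members. -/
def IsGammaCov (𝒰 : Set (Set α)) : Prop :=
  IsCov 𝒰 ∧ 𝒰.Infinite ∧ ∀ x, {U ∈ 𝒰 | x ∉ U}.Finite

/-- The selection property `Split(T, T)` of a topological space. -/
def SplitTauTau (α : Type) [TopologicalSpace α] : Prop :=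
  ∀ 𝒰 : Set (Set α), IsTauCov 𝒰 → ∃ 𝒱 𝒲 : Set (Set α), 𝒱 ∪ 𝒲 = 𝒰 ∧ Disjoint 𝒱 𝒲 ∧
    (∃ 𝒱' ⊆ 𝒱, IsTauCov 𝒱') ∧ (∃ 𝒲' ⊆ 𝒲, IsTauCov 𝒲')

/-- The selection property `(T choose Gamma)` of a topological space. -/
def TauChooseGamma (α : Type) [TopologicalSpace α] : Prop :=
  ∀ 𝒰 : Set (Set α), IsTauCov 𝒰 → ∃ 𝒱 ⊆ 𝒰, IsGammaCov 𝒱

/-- A class of topological properties is closed under finite products of sets of reals. -/
def ClosedUnderFiniteProducts (C : (α : Type) → [TopologicalSpace α] → Prop) : Prop :=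
  ∀ (n : ℕ) (X : Fin n → Set ℝ), (∀ i, C (X i)) → C (Set.pi Set.univ X : Set (Fin n → ℝ))

end Pool.Agent.Lib.MP_f722f0_gt
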