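import Mathlib

set_option autoImplicit false

open Set Topology Filter

namespace Pool.Agent.Lib.MP_f722f0_gt

section core

variable {Z : Type*} [TopologicalSpace Z]

theorem countable_inter_meagre {X : Set Z} (hL : ∀ N : Set Z, IsNowhereDense N → (X ∩ N).Countable)
    {M : Set Z} (hM : IsMeagre M) : (X ∩ M).Countable := by
  obtain ⟨S, hS, hSc, hsub⟩ := isMeagre_iff_countable_union_isNowhereDense.1 hM
  refine Set.Countable.mono (Set.inter_subset_inter_right X hsub) ?_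
  rw [Set.sUnion_eq_biUnion, Set.inter_iUnion₂]
  exact hSc.biUnion (fun N hN => hL N (hS N hN))

theorem isNowhereDense_frontier_of_isOpen {O : Set Z} (hO : IsOpen O) :
    IsNowhereDense (frontier O) := by
  unfold IsNowhereDense
  rw [isClosed_frontier.closure_eq]
  exact interior_frontier hO.isClosed_compl |> fun h => by rwa [frontier_compl] at h

/-- A non-meagre subset of an open set is dense in a smaller nonempty open set. -/
theorem exists_open_dense {E B₀ : Set Z} (hE : ¬ IsMeagre E) (hB : IsOpen B₀) (hEB : E ⊆ B₀) :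
    ∃ B : Set Z, IsOpen B ∧ B.Nonempty ∧ B ⊆ B₀ ∧ B ⊆ closure E := by
  have h1 : ¬ IsNowhereDense E := fun h => hE h.isMeagre
  have h2 : (interior (closure E)).Nonempty := by
    rw [Set.nonempty_iff_ne_empty]; exact h1
  obtain ⟨z, hz⟩ := h2
  have h3 : (interior (closure E) ∩ B₀).Nonempty := by
    have hz' : z ∈ closure E := interior_subset hz
    obtain ⟨w, hw1, hw2⟩ := mem_closure_iff.1 hz' _ isOpen_interior hz
    exact ⟨w, hw1, hEB hw2⟩
  exact ⟨_, isOpen_interior.inter hB, h3, Set.inter_subset_right,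
    Set.inter_subset_left.trans interior_subset⟩

theorem exists_basic_dense {ℬ : Set (Set Z)} (hℬ : TopologicalSpace.IsTopologicalBasis ℬ)
    {E B₀ : Set Z} (hE : ¬ IsMeagre E) (hB : IsOpen B₀) (hEB : E ⊆ B₀) :
    ∃ B ∈ ℬ, B.Nonempty ∧ B ⊆ B₀ ∧ B ⊆ closure E := by
  obtain ⟨B, hBo, ⟨z, hz⟩, hB0, hBE⟩ := exists_open_dense hE hB hEB
  obtain ⟨b, hb, hzb, hbB⟩ := hℬ.exists_subset_of_mem_open hz hBo
  exact ⟨b, hb, ⟨z, hzb⟩, hbB.trans hB0, hbB.trans hBE⟩

/-- Pigeonhole for non-meagre sets. -/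
theorem exists_nonmeagre {ι : Type*} [Countable ι] {S : Set Z} (hS : ¬ IsMeagre S) {E : ι → Set Z}
    (hcov : S ⊆ ⋃ i, E i) : ∃ i, ¬ IsMeagre (S ∩ E i) := by
  by_contra hcon
  push Not at hcon
  apply hS
  have : S ⊆ ⋃ i, S ∩ E i := by
    intro x hx
    obtain ⟨i, hi⟩ := Set.mem_iUnion.1 (hcov hx)
    exact Set.mem_iUnion.2 ⟨i, hx, hi⟩
  exact (isMeagre_iUnion hcon).mono this

/-- The key category lemma: linear quasi-orders modulo finite coming from open sets on a Luzin set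
have countable coinitiality. -/
theorem exists_countable_coinitial [SecondCountableTopology Z] (X : Set Z)
    (hL : ∀ N : Set Z, IsNowhereDense N → (X ∩ N).Countable)
    (O : ℕ → Set Z) (hO : ∀ n, IsOpen (O n))
    (hlin : ∀ x ∈ X, ∀ y ∈ X, {n | x ∈ O n ∧ y ∉ O n}.Finite ∨ {n | y ∈ O n ∧ x ∉ O n}.Finite) :
    ∃ D ⊆ X, D.Countable ∧ ∀ y ∈ X, ∃ d ∈ D, {n | d ∈ O n ∧ y ∉ O n}.Finite := by
  classical
  set ℬ : Set (Set Z) := TopologicalSpace.countableBasis Z with hℬdef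
  have hℬ : TopologicalSpace.IsTopologicalBasis ℬ := TopologicalSpace.isBasis_countableBasis Z
  have hℬc : ℬ.Countable := TopologicalSpace.countable_countableBasis Z
  -- thin part
  set Wt : Set Z := ⋃₀ {b ∈ ℬ | (X ∩ b).Countable} with hWt
  have hWto : IsOpen Wt := isOpen_sUnion (fun b hb => hℬ.isOpen hb.1)
  have hXWt : (X ∩ Wt).Countable := by
    rw [hWt, Set.sUnion_eq_biUnion, Set.inter_iUnion₂]
    exact (hℬc.mono (fun b hb => hb.1)).biUnion (fun b hb => hb.2)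
  have hXcl : (X ∩ closure Wt).Countable := by
    have : closure Wt ⊆ Wt ∪ frontier Wt := by
      rw [hWto.frontier_eq]
      intro x hx
      by_cases h : x ∈ Wt
      · exact Or.inl h
      · exact Or.inr ⟨hx, h⟩
    refine Set.Countable.mono (Set.inter_subset_inter_right X this) ?_
    rw [Set.inter_union_distrib_left]
    exact hXWt.union (hL _ (isNowhereDense_frontier_of_isOpen hWto))
  set V : Set Z := (closure Wt)ᶜ with hV
  have hVo : IsOpen V := isClosed_closure.isOpen_compl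
  have hnm : ∀ B : Set Z, IsOpen B → B.Nonempty → B ⊆ V → ¬ IsMeagre (X ∩ B) := by
    intro B hBo hBne hBV hm
    have hc : (X ∩ B).Countable := by
      have := countable_inter_meagre hL hm
      rwa [← Set.inter_assoc, Set.inter_self] at this
    obtain ⟨z, hz⟩ := hBne
    obtain ⟨b, hb, hzb, hbB⟩ := hℬ.exists_subset_of_mem_open hz hBo
    have hzW : z ∈ Wt := ⟨b, ⟨hb, hc.mono (Set.inter_subset_inter_right X hbB)⟩, hzb⟩
    exact hBV hz (subset_closure hzW)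
  -- the dichotomy
  have hdich : ∀ x ∈ X, ∀ B₀ : Set Z, IsOpen B₀ → B₀.Nonempty → B₀ ⊆ V →
      ∃ b ∈ ℬ, b.Nonempty ∧ b ⊆ B₀ ∧ ∃ k : ℕ, (∀ n ≥ k, x ∈ O n → b ⊆ closure (O n)) ∨
        (∀ n ≥ k, (O n ∩ b).Nonempty → x ∈ O n) := by
    intro x hx B₀ hB₀o hB₀ne hB₀V
    let E : ℕ × Bool → Set Z := fun p =>
      if p.2 then {y | ∀ n ≥ p.1, x ∈ O n → y ∈ O n} else {y | ∀ n ≥ p.1, y ∈ O n → x ∈ O n}
    have hcov : X ∩ B₀ ⊆ ⋃ p, E p := by
      rintro y ⟨hyX, -⟩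
      rcases hlin x hx y hyX with h | h
      · obtain ⟨k, hk⟩ := h.bddAbove
        refine Set.mem_iUnion.2 ⟨(k + 1, true), ?_⟩
        simp only [E, if_true]
        intro n hn hxn
        by_contra hyn
        have := hk ⟨hxn, hyn⟩
        omega
      · obtain ⟨k, hk⟩ := h.bddAbove
        refine Set.mem_iUnion.2 ⟨(k + 1, false), ?_⟩
        simp only [E, Bool.false_eq_true, if_false]
        intro n hn hyn
        by_contra hxn
        have := hk ⟨hyn, hxn⟩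
        omega
    obtain ⟨⟨k, t⟩, hE⟩ := exists_nonmeagre (hnm B₀ hB₀o hB₀ne hB₀V) hcov
    obtain ⟨b, hb, hbne, hbB, hbE⟩ := exists_basic_dense hℬ hE hB₀o
      (Set.inter_subset_left.trans Set.inter_subset_right)
    refine ⟨b, hb, hbne, hbB, k, ?_⟩
    cases t with
    | true =>
      left
      intro n hn hxn
      refine hbE.trans (closure_mono ?_)
      rintro y ⟨-, hy⟩
      simp only [E, if_true] at hy
      exact hy n hn hxn
    | false =>
      right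
      rintro n hn ⟨w, hwO, hwb⟩
      obtain ⟨y, hyO, -, hy⟩ := mem_closure_iff.1 (hbE hwb) (O n) (hO n) hwO
      simp only [E, Bool.false_eq_true, if_false] at hy
      exact hy n hn hyO
  -- second step
  have hsecond : ∀ B₀ : Set Z, IsOpen B₀ → B₀.Nonempty → B₀ ⊆ V →
      ∃ b₁ ∈ ℬ, b₁.Nonempty ∧ b₁ ⊆ B₀ ∧ ∃ b₂ ∈ ℬ, b₂.Nonempty ∧ b₂ ⊆ B₀ ∧
        ∃ k : ℕ, ∀ n ≥ k, (O n ∩ b₁).Nonempty → b₂ ⊆ closure (O n) := by
    intro B₀ hB₀o hB₀ne hB₀V
    have : Countable ℬ := hℬc.to_subtype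
    let E : ℬ × ℕ × Bool → Set Z := fun p =>
      {x | (p.1 : Set Z).Nonempty ∧ (p.1 : Set Z) ⊆ B₀ ∧
        if p.2.2 then (∀ n ≥ p.2.1, x ∈ O n → (p.1 : Set Z) ⊆ closure (O n))
        else (∀ n ≥ p.2.1, (O n ∩ p.1).Nonempty → x ∈ O n)}
    have hcov : X ∩ B₀ ⊆ ⋃ p, E p := by
      rintro x ⟨hxX, -⟩
      obtain ⟨b, hb, hbne, hbB, k, h | h⟩ := hdich x hxX B₀ hB₀o hB₀ne hB₀V
      · refine Set.mem_iUnion.2 ⟨(⟨b, hb⟩, k, true), ?_⟩
        simp only [E, if_true]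
        exact ⟨hbne, hbB, h⟩
      · refine Set.mem_iUnion.2 ⟨(⟨b, hb⟩, k, false), ?_⟩
        simp only [E, Bool.false_eq_true, if_false]
        exact ⟨hbne, hbB, h⟩
    obtain ⟨⟨⟨b, hb⟩, k, t⟩, hE⟩ := exists_nonmeagre (hnm B₀ hB₀o hB₀ne hB₀V) hcov
    obtain ⟨x₀, -, hx₀⟩ := nonempty_of_not_isMeagre hE
    have hbne : b.Nonempty := hx₀.1
    have hbB : b ⊆ B₀ := hx₀.2.1
    obtain ⟨c, hc, hcne, hcB, hcE⟩ := exists_basic_dense hℬ hE hB₀o
      (Set.inter_subset_left.trans Set.inter_subset_right)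
    cases t with
    | true =>
      refine ⟨c, hc, hcne, hcB, b, hb, hbne, hbB, k, ?_⟩
      rintro n hn ⟨w, hwO, hwc⟩
      obtain ⟨y, hyO, -, hy⟩ := mem_closure_iff.1 (hcE hwc) (O n) (hO n) hwO
      have hy' := hy.2.2
      simp only [if_true] at hy'
      exact hy' n hn hyO
    | false =>
      refine ⟨b, hb, hbne, hbB, c, hc, hcne, hcB, k, ?_⟩
      intro n hn hne
      refine hcE.trans (closure_mono ?_)
      rintro y ⟨-, hy⟩
      have hy' := hy.2.2
      simp only [Bool.false_eq_true, if_false] at hy'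
      exact hy' n hn hne
  -- choose one point in every basic set
  let pt : ℬ → Set Z := fun b => if h : (X ∩ b).Nonempty then {h.some} else ∅
  let D₀ : Set Z := ⋃ b : ℬ, pt b
  have hD₀c : D₀.Countable := by
    have : Countable ℬ := hℬc.to_subtype
    refine Set.countable_iUnion (fun b => ?_)
    simp only [pt]
    split_ifs
    · exact Set.countable_singleton _
    · exact Set.countable_empty
  have hD₀X : D₀ ⊆ X := by
    intro x hx
    obtain ⟨b, hb⟩ := Set.mem_iUnion.1 hx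
    simp only [pt] at hb
    split_ifs at hb with h
    · rw [Set.mem_singleton_iff] at hb
      rw [hb]
      exact h.some_mem.1
    · exact absurd hb (Set.notMem_empty _)
  have hD₀pt : ∀ b ∈ ℬ, (X ∩ b).Nonempty → ∃ d ∈ D₀, d ∈ b := by
    intro b hb h
    refine ⟨h.some, Set.mem_iUnion.2 ⟨⟨b, hb⟩, ?_⟩, h.some_mem.2⟩
    simp only [pt, h, dif_pos]
    rfl
  let G : Set (Set Z) := {b ∈ ℬ | ∃ d ∈ D₀, ∃ k : ℕ, ∀ n ≥ k, d ∈ O n → b ⊆ closure (O n)}
  have hGd : IsNowhereDense (V \ ⋃₀ G) := by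
    unfold IsNowhereDense
    by_contra hcon
    obtain ⟨z, hz⟩ := Set.nonempty_iff_ne_empty.2 hcon
    obtain ⟨w, hw1, hw2⟩ := mem_closure_iff.1 (interior_subset hz) _ isOpen_interior hz
    obtain ⟨b₁, hb₁, hb₁ne, hb₁B, b₂, hb₂, hb₂ne, hb₂B, k, hk⟩ :=
      hsecond (interior (closure (V \ ⋃₀ G)) ∩ V) (isOpen_interior.inter hVo) ⟨w, hw1, hw2.1⟩
        Set.inter_subset_right
    have hb₁V : b₁ ⊆ V := hb₁B.trans Set.inter_subset_right
    obtain ⟨d, hdD, hdb⟩ := hD₀pt b₁ hb₁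
      (nonempty_of_not_isMeagre (hnm b₁ (hℬ.isOpen hb₁) hb₁ne hb₁V))
    have hb₂G : b₂ ∈ G := ⟨hb₂, d, hdD, k, fun n hn hdn => hk n hn ⟨d, hdn, hdb⟩⟩
    obtain ⟨v, hv⟩ := hb₂ne
    have hvcl : v ∈ closure (V \ ⋃₀ G) := interior_subset (hb₂B hv).1
    obtain ⟨u, hu1, hu2⟩ := mem_closure_iff.1 hvcl b₂ (hℬ.isOpen hb₂) hv
    exact hu2.2 ⟨b₂, hb₂G, hu1⟩
  let Bad : Set Z := {y ∈ X | ∀ d ∈ D₀, ¬ {n | d ∈ O n ∧ y ∉ O n}.Finite}
  have hBad : Bad.Countable := by
    have hsub : Bad ⊆ (X ∩ closure Wt) ∪ (X ∩ (V \ ⋃₀ G)) ∪ (X ∩ ⋃ n, frontier (O n)) := by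
      rintro y ⟨hyX, hy⟩
      by_contra hcon
      simp only [Set.mem_union, Set.mem_inter_iff, hyX, true_and, not_or] at hcon
      obtain ⟨⟨h1, h2⟩, h3⟩ := hcon
      have hyV : y ∈ V := h1
      have hyG : y ∈ ⋃₀ G := by
        by_contra h
        exact h2 ⟨hyV, h⟩
      obtain ⟨b, ⟨hb, d, hd, k, hk⟩, hyb⟩ := hyG
      apply hy d hd
      refine (Set.finite_lt_nat k).subset ?_
      rintro n ⟨hdn, hyn⟩
      by_contra hnk
      have hnk' : n ≥ k := not_lt.1 hnk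
      have hycl : y ∈ closure (O n) := hk n hnk' hdn hyb
      apply h3
      refine Set.mem_iUnion.2 ⟨n, ?_⟩
      rw [(hO n).frontier_eq]
      exact ⟨hycl, hyn⟩
    refine Set.Countable.mono hsub ((hXcl.union (hL _ hGd)).union ?_)
    exact countable_inter_meagre hL
      (isMeagre_iUnion (fun n => (isNowhereDense_frontier_of_isOpen (hO n)).isMeagre))
  refine ⟨D₀ ∪ Bad, Set.union_subset hD₀X (fun y hy => hy.1), hD₀c.union hBad, ?_⟩
  intro y hy
  by_cases h : ∀ d ∈ D₀, ¬ {n | d ∈ O n ∧ y ∉ O n}.Finite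
  · refine ⟨y, Or.inr ⟨hy, h⟩, ?_⟩
    have : {n | y ∈ O n ∧ y ∉ O n} = ∅ := by
      ext n; simp
    rw [this]
    exact Set.finite_empty
  · push Not at h
    obtain ⟨d, hd, hfin⟩ := h
    exact ⟨d, Or.inl hd, hfin⟩

end core

end Pool.Agent.Lib.MP_f722f0_gt
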