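import Mathlib
import Pool.Agent.Lib.MP_f722f0_gt.Defs
import Pool.Agent.Lib.MP_f722f0_gt.Luzin

set_option autoImplicit false

open Set Topology Filter

namespace Pool.Agent.Lib.MP_f722f0_gt

/-- In a second countable space every point-infinite open family has a countable
point-infinite subfamily. -/
theorem exists_countable_pointInfinite {α : Type*} [TopologicalSpace α]
    [SecondCountableTopology α] (𝒰 : Set (Set α)) (ho : ∀ U ∈ 𝒰, IsOpen U)
    (hinf : ∀ x, {U ∈ 𝒰 | x ∈ U}.Infinite) :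
    ∃ 𝒰' ⊆ 𝒰, 𝒰'.Countable ∧ ∀ x, {U ∈ 𝒰' | x ∈ U}.Infinite := by
  classical
  set ℬ : Set (Set α) := TopologicalSpace.countableBasis α
  have hℬ : TopologicalSpace.IsTopologicalBasis ℬ := TopologicalSpace.isBasis_countableBasis α
  have hℬc : ℬ.Countable := TopologicalSpace.countable_countableBasis α
  have hsel : ∀ b : Set α, ∃ s ⊆ {U ∈ 𝒰 | b ⊆ U}, s.Countable ∧
      ({U ∈ 𝒰 | b ⊆ U}.Infinite → s.Infinite) ∧
      ({U ∈ 𝒰 | b ⊆ U}.Finite → s = {U ∈ 𝒰 | b ⊆ U}) := by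
    intro b
    by_cases h : {U ∈ 𝒰 | b ⊆ U}.Finite
    · exact ⟨_, Set.Subset.rfl, h.countable, fun h' => h', fun _ => rfl⟩
    · have h' : {U ∈ 𝒰 | b ⊆ U}.Infinite := h
      refine ⟨Set.range (fun n => ((h'.natEmbedding _ n : {U ∈ 𝒰 | b ⊆ U}) : Set α)), ?_,
        Set.countable_range _, fun _ => ?_, fun h'' => absurd h'' h⟩
      · rintro _ ⟨n, rfl⟩
        exact (h'.natEmbedding _ n).2
      · exact Set.infinite_range_of_injective
          (Subtype.val_injective.comp (h'.natEmbedding _).injective)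
  choose s hs1 hs2 hs3 hs4 using hsel
  refine ⟨⋃ b ∈ ℬ, s b, ?_, hℬc.biUnion (fun b _ => hs2 b), ?_⟩
  · intro U hU
    simp only [Set.mem_iUnion] at hU
    obtain ⟨b, _, hb⟩ := hU
    exact (hs1 b hb).1
  · intro x
    by_cases h : ∃ b ∈ ℬ, x ∈ b ∧ {U ∈ 𝒰 | b ⊆ U}.Infinite
    · obtain ⟨b, hb, hxb, hbi⟩ := h
      refine (hs3 b hbi).mono ?_
      intro U hU
      refine ⟨?_, (hs1 b hU).2 hxb⟩
      simp only [Set.mem_iUnion]
      exact ⟨b, hb, hU⟩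
    · push Not at h
      refine (hinf x).mono ?_
      rintro U ⟨hU, hxU⟩
      obtain ⟨b, hb, hxb, hbU⟩ := hℬ.exists_subset_of_mem_open hxU (ho U hU)
      have hfin := h b hb hxb
      refine ⟨?_, hxU⟩
      simp only [Set.mem_iUnion]
      refine ⟨b, hb, ?_⟩
      rw [hs4 b hfin]
      exact ⟨hU, hbU⟩

/-- Pseudo-intersections from countable coinitiality. -/
theorem exists_pseudoIntersection {Z : Type*} {X D : Set Z} (hD : D ⊆ X) (hDc : D.Countable)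
    (hne : X.Nonempty) (f : Z → Set ℕ) (hinf : ∀ x ∈ X, (f x).Infinite)
    (hlin : ∀ x ∈ X, ∀ y ∈ X, (f x \ f y).Finite ∨ (f y \ f x).Finite)
    (hco : ∀ y ∈ X, ∃ d ∈ D, (f d \ f y).Finite) :
    ∃ A : Set ℕ, A.Infinite ∧ ∀ x ∈ X, (A \ f x).Finite := by
  classical
  have hDne : D.Nonempty := by
    obtain ⟨x, hx⟩ := hne
    obtain ⟨d, hd, _⟩ := hco x hx
    exact ⟨d, hd⟩
  have : Nonempty D := hDne.to_subtype
  have : Countable D := hDc.to_subtype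
  let F : D → Filter ℕ := fun d => Filter.cofinite ⊓ 𝓟 (f d)
  have hle : ∀ d e : D, (f d \ f e).Finite → F d ≤ F e := by
    intro d e h
    refine le_inf inf_le_left ?_
    rw [Filter.le_principal_iff]
    have h1 : (f d \ f e)ᶜ ∈ Filter.cofinite := h.compl_mem_cofinite
    have h2 : (f d \ f e)ᶜ ∩ f d ∈ F d := Filter.inter_mem_inf h1 (Filter.mem_principal_self _)
    refine Filter.mem_of_superset h2 ?_
    rintro n ⟨h3, h4⟩
    by_contra h5
    exact h3 ⟨h4, h5⟩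
  have hNe : ∀ d, (F d).NeBot := by
    intro d
    simp only [F]
    rw [Filter.cofinite_inf_principal_neBot_iff]
    exact hinf d (hD d.2)
  have hdir : Directed (· ≥ ·) F := by
    intro d e
    rcases hlin d (hD d.2) e (hD e.2) with h | h
    · exact ⟨d, le_refl _, hle d e h⟩
    · exact ⟨e, hle e d h, le_refl _⟩
  have hN : (⨅ d, F d).NeBot := Filter.iInf_neBot_of_directed' hdir hNe
  have hcg' : ∀ d, (F d).IsCountablyGenerated := fun d => by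
    simp only [F]; rw [Nat.cofinite_eq_atTop]; infer_instance
  have hcg : (⨅ d, F d).IsCountablyGenerated := inferInstance
  obtain ⟨u, hu⟩ := Filter.exists_seq_tendsto (⨅ d, F d)
  have hucof : Tendsto u atTop Filter.cofinite :=
    hu.mono_right ((iInf_le F hDne.to_subtype.some).trans inf_le_left)
  refine ⟨Set.range u, ?_, ?_⟩
  · intro hfin
    have h1 : (Set.range u)ᶜ ∈ Filter.cofinite := hfin.compl_mem_cofinite
    have h2 : u ⁻¹' (Set.range u)ᶜ ∈ (atTop : Filter ℕ) := hucof h1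
    obtain ⟨n, hn⟩ := Filter.nonempty_of_mem h2
    exact hn ⟨n, rfl⟩
  · intro x hx
    obtain ⟨d, hd, hdx⟩ := hco x hx
    have h1 : Tendsto u atTop (F ⟨d, hd⟩) := hu.mono_right (iInf_le F ⟨d, hd⟩)
    have h2 : f x ∈ F ⟨d, hd⟩ := by
      have h1 : (f d \ f x)ᶜ ∈ Filter.cofinite := hdx.compl_mem_cofinite
      have h2 : (f d \ f x)ᶜ ∩ f d ∈ F ⟨d, hd⟩ := Filter.inter_mem_inf h1 (Filter.mem_principal_self _)
      refine Filter.mem_of_superset h2 ?_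
      rintro n ⟨h3, h4⟩
      by_contra h5
      exact h3 ⟨h4, h5⟩
    obtain ⟨N, hN⟩ := Filter.eventually_atTop.1 (h1 h2)
    refine ((Set.finite_lt_nat N).image u).subset ?_
    rintro _ ⟨⟨n, rfl⟩, hn⟩
    refine ⟨n, ?_, rfl⟩
    by_contra hnN
    exact hn (hN n (not_lt.1 hnN))

/-- Luzin sets satisfy `(T choose Gamma)`. -/
theorem tauChooseGamma_of_luzin (X : Set ℝ) (hne : X.Nonempty)
    (hL : ∀ N : Set ℝ, IsNowhereDense N → (X ∩ N).Countable) : TauChooseGamma X := by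
  classical
  intro 𝒰 h𝒰
  obtain ⟨⟨⟨ho, hcov, huniv⟩, hinf⟩, hlin⟩ := h𝒰
  obtain ⟨𝒰', hsub, hcount, hinf'⟩ := exists_countable_pointInfinite 𝒰 ho hinf
  have h𝒰'inf : 𝒰'.Infinite := by
    obtain ⟨x, hx⟩ := hne
    exact (hinf' ⟨x, hx⟩).mono (fun U hU => hU.1)
  obtain ⟨hden⟩ := (Set.countable_infinite_iff_nonempty_denumerable).1 ⟨hcount, h𝒰'inf⟩
  let e : ℕ → Set X := fun n => ((Denumerable.eqv 𝒰').symm n : Set X)
  have he_mem : ∀ n, e n ∈ 𝒰' := fun n => ((Denumerable.eqv 𝒰').symm n).2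
  have he_inj : Function.Injective e :=
    Subtype.val_injective.comp (Denumerable.eqv 𝒰').symm.injective
  have he_surj : ∀ U ∈ 𝒰', ∃ n, e n = U := by
    intro U hU
    exact ⟨Denumerable.eqv 𝒰' ⟨U, hU⟩, by simp [e]⟩
  have hO : ∀ n, ∃ O : Set ℝ, IsOpen O ∧ Subtype.val ⁻¹' O = e n := by
    intro n
    exact isOpen_induced_iff.1 (ho _ (hsub (he_mem n)))
  choose O hOo hOe using hO
  have hOmem : ∀ (x : X) n, (x : ℝ) ∈ O n ↔ x ∈ e n := by
    intro x n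
    rw [← hOe n]; rfl
  have hfin_of : ∀ x y : X, {U ∈ 𝒰 | x ∈ U ∧ y ∉ U}.Finite →
      {n | (x : ℝ) ∈ O n ∧ (y : ℝ) ∉ O n}.Finite := by
    intro x y h
    refine Set.Finite.of_finite_image (f := e) (h.subset ?_) he_inj.injOn
    rintro _ ⟨n, ⟨h1, h2⟩, rfl⟩
    exact ⟨hsub (he_mem n), (hOmem x n).1 h1, fun h3 => h2 ((hOmem y n).2 h3)⟩
  have hlin' : ∀ x ∈ X, ∀ y ∈ X, {n | x ∈ O n ∧ y ∉ O n}.Finite ∨ {n | y ∈ O n ∧ x ∉ O n}.Finite := by
    intro x hx y hy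
    rcases hlin ⟨x, hx⟩ ⟨y, hy⟩ with h | h
    · exact Or.inl (hfin_of _ _ h)
    · exact Or.inr (hfin_of _ _ h)
  obtain ⟨D, hDX, hDc, hco⟩ := exists_countable_coinitial X hL O hOo hlin'
  obtain ⟨A, hAinf, hA⟩ := exists_pseudoIntersection hDX hDc hne (fun x => {n | x ∈ O n})
    (by
      intro x hx
      have h1 := hinf' ⟨x, hx⟩
      by_contra hfin
      rw [Set.not_infinite] at hfin
      apply h1
      refine (hfin.image e).subset ?_
      rintro U ⟨hU, hxU⟩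
      obtain ⟨n, rfl⟩ := he_surj U hU
      exact ⟨n, (hOmem ⟨x, hx⟩ n).2 hxU, rfl⟩)
    (by
      intro x hx y hy
      exact hlin' x hx y hy)
    (by
      intro y hy
      exact hco y hy)
  have hfinx : ∀ x : X, {U ∈ e '' A | x ∉ U}.Finite := by
    intro x
    refine ((hA x x.2).image e).subset ?_
    rintro _ ⟨⟨n, hn, rfl⟩, hxn⟩
    exact ⟨n, ⟨hn, fun h => hxn ((hOmem x n).1 h)⟩, rfl⟩
  have hinfA : (e '' A).Infinite := hAinf.image he_inj.injOn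
  refine ⟨e '' A, ?_, ⟨?_, ?_, ?_⟩, hinfA, hfinx⟩
  · rintro _ ⟨n, _, rfl⟩
    exact hsub (he_mem n)
  · rintro _ ⟨n, _, rfl⟩
    exact ho _ (hsub (he_mem n))
  · rw [Set.eq_univ_iff_forall]
    intro x
    by_contra hx
    apply hinfA
    refine (hfinx x).subset ?_
    intro U hU
    exact ⟨hU, fun hxU => hx ⟨U, hU, hxU⟩⟩
  · rintro ⟨n, _, hn⟩
    exact huniv (hn ▸ hsub (he_mem n))

/-- `(T choose Gamma)` implies `Split(T, T)`. -/
theorem splitTauTau_of_tauChooseGamma {α : Type} [TopologicalSpace α] (h : TauChooseGamma α) :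
    SplitTauTau α := by
  classical
  intro 𝒰 h𝒰
  obtain ⟨𝒱, h𝒱𝒰, ⟨ho, hcov, huniv⟩, hinf, hfin⟩ := h 𝒰 h𝒰
  let φ := hinf.natEmbedding 𝒱
  have hφ : Function.Injective (fun n => ((φ n : 𝒱) : Set α)) :=
    Subtype.val_injective.comp φ.injective
  -- an infinite subfamily of a gamma cover is a tau cover
  have key : ∀ 𝒲 ⊆ 𝒱, 𝒲.Infinite → IsTauCov 𝒲 := by
    intro 𝒲 h𝒲 h𝒲inf
    have hlarge : ∀ x, {U ∈ 𝒲 | x ∈ U}.Infinite := by
      intro x hx
      apply h𝒲inf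
      refine (hx.union (hfin x)).subset ?_
      intro U hU
      by_cases hxU : x ∈ U
      · exact Or.inl ⟨hU, hxU⟩
      · exact Or.inr ⟨h𝒲 hU, hxU⟩
    refine ⟨⟨⟨fun U hU => ho U (h𝒲 hU), ?_, fun hU => huniv (h𝒲 hU)⟩, hlarge⟩, ?_⟩
    · rw [Set.eq_univ_iff_forall]
      intro x
      obtain ⟨U, hU⟩ := (hlarge x).nonempty
      exact ⟨U, hU.1, hU.2⟩
    · intro x y
      left
      exact (hfin y).subset (fun U hU => ⟨h𝒲 hU.1, hU.2.2⟩)
  let 𝒱₁ : Set (Set α) := Set.range (fun n => ((φ (2 * n) : 𝒱) : Set α))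
  let 𝒱₂ : Set (Set α) := Set.range (fun n => ((φ (2 * n + 1) : 𝒱) : Set α))
  have h₁ : 𝒱₁ ⊆ 𝒱 := by rintro _ ⟨n, rfl⟩; exact (φ (2 * n)).2
  have h₂ : 𝒱₂ ⊆ 𝒱 := by rintro _ ⟨n, rfl⟩; exact (φ (2 * n + 1)).2
  have i₁ : 𝒱₁.Infinite := Set.infinite_range_of_injective
    (fun a b hab => by have := hφ hab; omega)
  have i₂ : 𝒱₂.Infinite := Set.infinite_range_of_injective
    (fun a b hab => by have := hφ hab; omega)
  refine ⟨𝒱₁, 𝒰 \ 𝒱₁, Set.union_sdiff_cancel (h₁.trans h𝒱𝒰), Set.disjoint_sdiff_right,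
    ⟨𝒱₁, Set.Subset.rfl, key _ h₁ i₁⟩, ⟨𝒱₂, ?_, key _ h₂ i₂⟩⟩
  rintro U ⟨n, rfl⟩
  refine ⟨h𝒱𝒰 (φ (2 * n + 1)).2, ?_⟩
  rintro ⟨m, hm⟩
  have := hφ hm
  omega

end Pool.Agent.Lib.MP_f722f0_gt
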