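import Mathlib
import Pool.Agent.Lib.MP_eb6644_gt.Closure
import Pool.Agent.Lib.MP_f722f0_gt.Gamma

set_option autoImplicit false

open Set Topology Filter

namespace Pool.Agent.Lib.MP_f722f0_gt

/-- The abstract non-splitting lemma. -/
theorem not_splitTauTau {α : Type} [TopologicalSpace α] (𝒯 : Set (Set ℕ))
    (h1 : ∀ t ∈ 𝒯, t.Infinite)
    (h2 : ∀ s ∈ 𝒯, ∀ t ∈ 𝒯, (s \ t).Finite ∨ (t \ s).Finite)
    (h3 : ∀ A : Set ℕ, ∃ t ∈ 𝒯, t ⊆ A ∨ t ⊆ Aᶜ)
    (h4 : ∀ t ∈ 𝒯, ∀ s : Set ℕ, (s \ t).Finite → (t \ s).Finite → s ∈ 𝒯)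
    (W : ℕ → Set α) (hWo : ∀ n, IsOpen (W n))
    (ha : ∀ z, (∀ n, z ∈ W n) ∨ ∃ t ∈ 𝒯, ∀ n, z ∈ W n ↔ n ∈ t)
    (hb : ∀ t ∈ 𝒯, ∃ z, ∀ n, z ∈ W n ↔ n ∈ t) : ¬ SplitTauTau α := by
  classical
  obtain ⟨t₀, ht₀, -⟩ := h3 univ
  have hsep : ∀ n m, n ≠ m → ∃ t ∈ 𝒯, n ∈ t ∧ m ∉ t := by
    intro n m hnm
    refine ⟨(t₀ ∪ {n}) \ {m}, h4 t₀ ht₀ _ ?_ ?_, ⟨Or.inr rfl, hnm⟩, fun h => h.2 rfl⟩
    · refine (Set.finite_singleton n).subset ?_
      rintro k ⟨⟨hk1 | hk1, _⟩, hk2⟩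
      · exact absurd hk1 hk2
      · exact hk1
    · refine (Set.finite_singleton m).subset ?_
      rintro k ⟨hk1, hk2⟩
      by_contra hk3
      exact hk2 ⟨Or.inl hk1, hk3⟩
  have hmiss : ∀ n, ∃ t ∈ 𝒯, n ∉ t := by
    intro n
    obtain ⟨t, ht, _, h⟩ := hsep (n + 1) n (by omega)
    exact ⟨t, ht, h⟩
  have hinj : Function.Injective W := by
    intro n m hnm
    by_contra hne
    obtain ⟨t, ht, h5, h6⟩ := hsep n m hne
    obtain ⟨z, hz⟩ := hb t ht
    have : z ∈ W m := hnm ▸ (hz n).2 h5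
    exact h6 ((hz m).1 this)
  have hlarge : ∀ z, {U ∈ Set.range W | z ∈ U}.Infinite := by
    intro z
    have hinf : {n | z ∈ W n}.Infinite := by
      rcases ha z with h | ⟨t, ht, h⟩
      · have : {n | z ∈ W n} = univ := by
          rw [Set.eq_univ_iff_forall]; exact h
        rw [this]
        exact Set.infinite_univ
      · have : {n | z ∈ W n} = t := by
          ext n; exact h n
        rw [this]
        exact h1 t ht
    refine (hinf.image hinj.injOn).mono ?_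
    rintro _ ⟨n, hn, rfl⟩
    exact ⟨⟨n, rfl⟩, hn⟩
  have hTau : IsTauCov (Set.range W) := by
    refine ⟨⟨⟨?_, ?_, ?_⟩, hlarge⟩, ?_⟩
    · rintro _ ⟨n, rfl⟩
      exact hWo n
    · rw [Set.eq_univ_iff_forall]
      intro z
      obtain ⟨U, hU⟩ := (hlarge z).nonempty
      exact ⟨U, hU.1, hU.2⟩
    · rintro ⟨n, hn⟩
      obtain ⟨t, ht, hnt⟩ := hmiss n
      obtain ⟨z, hz⟩ := hb t ht
      exact hnt ((hz n).1 (hn ▸ mem_univ z))
    · intro x y
      rcases ha x with hx | ⟨t, ht, hx⟩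
      · right
        refine Set.finite_empty.subset ?_
        rintro _ ⟨⟨n, rfl⟩, _, h⟩
        exact h (hx n)
      rcases ha y with hy | ⟨s, hs, hy⟩
      · left
        refine Set.finite_empty.subset ?_
        rintro _ ⟨⟨n, rfl⟩, _, h⟩
        exact h (hy n)
      rcases h2 t ht s hs with h | h
      · left
        refine (h.image W).subset ?_
        rintro _ ⟨⟨n, rfl⟩, hn1, hn2⟩
        exact ⟨n, ⟨(hx n).1 hn1, fun h => hn2 ((hy n).2 h)⟩, rfl⟩
      · right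
        refine (h.image W).subset ?_
        rintro _ ⟨⟨n, rfl⟩, hn1, hn2⟩
        exact ⟨n, ⟨(hy n).1 hn1, fun h => hn2 ((hx n).2 h)⟩, rfl⟩
  intro hsplit
  obtain ⟨𝒱, 𝒲, hU, hdisj, ⟨𝒱', h𝒱', hV⟩, ⟨𝒲', h𝒲', hW⟩⟩ := hsplit _ hTau
  obtain ⟨t, ht, htA⟩ := h3 {n | W n ∈ 𝒱}
  obtain ⟨z, hz⟩ := hb t ht
  rcases htA with htA | htA
  · have hz1 : z ∈ ⋃₀ 𝒲' := by rw [hW.1.1.2.1]; exact mem_univ z
    obtain ⟨U, hU1, hU2⟩ := hz1
    have hU3 : U ∈ Set.range W := hU ▸ Or.inr (h𝒲' hU1)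
    obtain ⟨n, rfl⟩ := hU3
    have hn : n ∈ t := (hz n).1 hU2
    exact Set.disjoint_left.1 hdisj (htA hn) (h𝒲' hU1)
  · have hz1 : z ∈ ⋃₀ 𝒱' := by rw [hV.1.1.2.1]; exact mem_univ z
    obtain ⟨U, hU1, hU2⟩ := hz1
    have hU3 : U ∈ Set.range W := hU ▸ Or.inl (h𝒱' hU1)
    obtain ⟨n, rfl⟩ := hU3
    have hn : n ∈ t := (hz n).1 hU2
    exact htA hn (h𝒱' hU1)

/-- One step of the tower construction. -/
theorem tower_step (T : Set (Set ℕ)) (hT : T.Countable) (hinf : ∀ s ∈ T, s.Infinite)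
    (hlin : ∀ s ∈ T, ∀ t ∈ T, (s \ t).Finite ∨ (t \ s).Finite) (A : Set ℕ) :
    ∃ t : Set ℕ, t.Infinite ∧ (∀ s ∈ T, (t \ s).Finite) ∧ (t ⊆ A ∨ t ⊆ Aᶜ) := by
  obtain ⟨B, hB, hBT⟩ := exists_pseudoIntersection (Z := Set ℕ) (X := insert univ T)
    (D := insert univ T) Set.Subset.rfl (hT.insert _) ⟨univ, Set.mem_insert _ _⟩ id
    (by
      intro s hs
      rcases hs with rfl | hs
      · exact Set.infinite_univ
      · exact hinf s hs)
    (by
      intro s hs t ht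
      rcases hs with rfl | hs
      · right; simp
      rcases ht with rfl | ht
      · left; simp
      exact hlin s hs t ht)
    (by
      intro s hs
      exact ⟨s, hs, by simp⟩)
  have hsplit : B = (B ∩ A) ∪ (B ∩ Aᶜ) := by
    rw [← Set.inter_union_distrib_left, Set.union_compl_self, Set.inter_univ]
  by_cases h : (B ∩ A).Infinite
  · refine ⟨B ∩ A, h, fun s hs => ?_, Or.inl Set.inter_subset_right⟩
    exact (hBT s (Set.mem_insert_of_mem _ hs)).subset (fun n hn => ⟨hn.1.1, hn.2⟩)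
  · rw [Set.not_infinite] at h
    refine ⟨B ∩ Aᶜ, ?_, fun s hs => ?_, Or.inr Set.inter_subset_right⟩
    · intro h'
      exact hB (hsplit ▸ h.union h')
    · exact (hBT s (Set.mem_insert_of_mem _ hs)).subset (fun n hn => ⟨hn.1.1, hn.2⟩)

/-- Under a well-ordering of `Set ℕ` with countable initial segments, there is a base of an
ultrafilter that is linearly ordered modulo finite sets. -/
theorem exists_base {I : Type} [LinearOrder I] [WellFoundedLT I]
    (hI : ∀ i : I, (Set.Iio i).Countable) (A : I → Set ℕ) (hA : Function.Surjective A) :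
    ∃ 𝒯 : Set (Set ℕ), (∀ t ∈ 𝒯, t.Infinite) ∧
      (∀ s ∈ 𝒯, ∀ t ∈ 𝒯, (s \ t).Finite ∨ (t \ s).Finite) ∧
      (∀ A : Set ℕ, ∃ t ∈ 𝒯, t ⊆ A ∨ t ⊆ Aᶜ) ∧
      (∀ t ∈ 𝒯, ∀ s : Set ℕ, (s \ t).Finite → (t \ s).Finite → s ∈ 𝒯) := by
  classical
  let nxt : Set (Set ℕ) → Set ℕ → Set ℕ := fun T B =>
    if h : ∃ t : Set ℕ, t.Infinite ∧ (∀ s ∈ T, (t \ s).Finite) ∧ (t ⊆ B ∨ t ⊆ Bᶜ) then
      Classical.choose h else univ
  have wf : WellFounded ((· < ·) : I → I → Prop) := wellFounded_lt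
  let t : I → Set ℕ := wf.fix (fun i ih => nxt (Set.range (fun j : Set.Iio i => ih j.1 j.2)) (A i))
  have ht : ∀ i, t i = nxt (Set.range (fun j : Set.Iio i => t j.1)) (A i) := fun i => wf.fix_eq _ _
  have hP : ∀ i, (t i).Infinite ∧ (∀ j, j < i → (t i \ t j).Finite) ∧
      (t i ⊆ A i ∨ t i ⊆ (A i)ᶜ) := by
    intro i
    induction i using wf.induction with
    | _ i ih =>
      have : Countable (Set.Iio i) := (hI i).to_subtype
      have hex : ∃ s : Set ℕ, s.Infinite ∧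
          (∀ u ∈ Set.range (fun j : Set.Iio i => t j.1), (s \ u).Finite) ∧
          (s ⊆ A i ∨ s ⊆ (A i)ᶜ) := by
        apply tower_step _ (Set.countable_range _)
        · rintro _ ⟨j, rfl⟩
          exact (ih j.1 j.2).1
        · rintro _ ⟨j, rfl⟩ _ ⟨k, rfl⟩
          rcases lt_trichotomy j.1 k.1 with h | h | h
          · right
            exact (ih k.1 k.2).2.1 j.1 h
          · left
            simp only [h, sdiff_self]
            exact Set.finite_empty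
          · left
            exact (ih j.1 j.2).2.1 k.1 h
      have hti : t i = Classical.choose hex := by
        rw [ht i]
        simp only [nxt]
        rw [dif_pos hex]
      have hs := Classical.choose_spec hex
      rw [← hti] at hs
      exact ⟨hs.1, fun j hj => hs.2.1 _ ⟨⟨j, hj⟩, rfl⟩, hs.2.2⟩
  have hcomp : ∀ i j, (t i \ t j).Finite ∨ (t j \ t i).Finite := by
    intro i j
    rcases lt_trichotomy i j with h | h | h
    · exact Or.inr ((hP j).2.1 i h)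
    · left; rw [h]; simp
    · exact Or.inl ((hP i).2.1 j h)
  have htrans : ∀ a b c : Set ℕ, (a \ b).Finite → (b \ c).Finite → (a \ c).Finite := by
    intro a b c h1 h2
    refine (h1.union h2).subset ?_
    rintro n ⟨h3, h4⟩
    by_cases h5 : n ∈ b
    · exact Or.inr ⟨h5, h4⟩
    · exact Or.inl ⟨h3, h5⟩
  refine ⟨{s | ∃ i, (s \ t i).Finite ∧ (t i \ s).Finite}, ?_, ?_, ?_, ?_⟩
  · rintro s ⟨i, h1, h2⟩ hfin
    apply (hP i).1
    refine (h2.union hfin).subset ?_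
    intro n hn
    by_cases h : n ∈ s
    · exact Or.inr h
    · exact Or.inl ⟨hn, h⟩
  · rintro s ⟨i, hi1, hi2⟩ u ⟨j, hj1, hj2⟩
    rcases hcomp i j with h | h
    · exact Or.inl (htrans _ _ _ (htrans _ _ _ hi1 h) hj2)
    · exact Or.inr (htrans _ _ _ (htrans _ _ _ hj1 h) hi2)
  · intro B
    obtain ⟨i, rfl⟩ := hA B
    exact ⟨t i, ⟨i, by simp, by simp⟩, (hP i).2.2⟩
  · rintro u ⟨i, hi1, hi2⟩ s h1 h2
    exact ⟨i, htrans _ _ _ h1 hi1, htrans _ _ _ hi2 h2⟩

/-- The recursion for the pairs of Luzin sets. -/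
theorem exists_pairs {I : Type} [LinearOrder I] [WellFoundedLT I]
    (hI : ∀ i : I, (Set.Iio i).Countable) (r : I → ℝ) (N : I → Set ℝ)
    (hN : ∀ i, IsNowhereDense (N i)) (P : Set ℝ) (hP : IsNowhereDense P) :
    ∃ x y : I → ℝ, (∀ i, x i + y i = r i) ∧ (∀ i j, j < i → x i + y j ∉ P ∧ x j + y i ∉ P) ∧
      (∀ i j, j ≤ i → x i ∉ N j ∧ y i ∉ N j) := by
  classical
  let nxt : Set ℝ → ℝ → ℝ × ℝ := fun M c =>
    if h : ∃ x : ℝ, x ∉ M ∧ c - x ∉ M then (Classical.choose h, c - Classical.choose h) else (0, 0)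
  have hnxt : ∀ M c, IsMeagre M → (nxt M c).1 ∉ M ∧ (nxt M c).2 ∉ M ∧ (nxt M c).1 + (nxt M c).2 = c := by
    intro M c hM
    have hM2 : IsMeagre ((fun x => c - x) ⁻¹' M) :=
      hM.preimage_of_isOpenMap (continuous_const.sub continuous_id)
        (Homeomorph.subLeft c).isOpenMap
    have h3 : (M ∪ ((fun x => c - x) ⁻¹' M)) ≠ univ := by
      intro h
      have := hM.union hM2
      rw [h] at this
      exact not_isMeagre_of_isOpen isOpen_univ univ_nonempty this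
    obtain ⟨x, hx⟩ := (Set.ne_univ_iff_exists_notMem _).1 h3
    have hex : ∃ x : ℝ, x ∉ M ∧ c - x ∉ M := ⟨x, fun h => hx (Or.inl h), fun h => hx (Or.inr h)⟩
    have hs := Classical.choose_spec hex
    simp only [nxt]
    rw [dif_pos hex]
    exact ⟨hs.1, hs.2, by ring⟩
  have wf : WellFounded ((· < ·) : I → I → Prop) := wellFounded_lt
  let M : (i : I) → ((j : I) → j < i → ℝ × ℝ) → Set ℝ := fun i ih =>
    (⋃ j : Set.Iic i, N j.1) ∪ ((⋃ j : Set.Iio i, {z | z + (ih j.1 j.2).2 ∈ P}) ∪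
      (⋃ j : Set.Iio i, {z | z + (ih j.1 j.2).1 ∈ P}))
  have hM : ∀ i ih, IsMeagre (M i ih) := by
    intro i ih
    have h1 : Countable (Set.Iio i) := (hI i).to_subtype
    have h2 : Countable (Set.Iic i) := by
      have : (Set.Iic i).Countable := by
        rw [← Set.Iio_insert]
        exact (hI i).insert i
      exact this.to_subtype
    have h3 : ∀ c : ℝ, IsMeagre {z | z + c ∈ P} := fun c =>
      hP.isMeagre.preimage_of_isOpenMap (continuous_id.add continuous_const)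
        (Homeomorph.addRight c).isOpenMap
    have e1 : IsMeagre (⋃ j : Set.Iic i, N j.1) :=
      isMeagre_iUnion (fun j : Set.Iic i => (hN j.1).isMeagre)
    have e2 : IsMeagre (⋃ j : Set.Iio i, {z | z + (ih j.1 j.2).2 ∈ P}) :=
      isMeagre_iUnion (fun j : Set.Iio i => h3 (ih j.1 j.2).2)
    have e3 : IsMeagre (⋃ j : Set.Iio i, {z | z + (ih j.1 j.2).1 ∈ P}) :=
      isMeagre_iUnion (fun j : Set.Iio i => h3 (ih j.1 j.2).1)
    exact e1.union (e2.union e3)
  obtain ⟨p, hp⟩ : ∃ p : I → ℝ × ℝ, ∀ i, p i = nxt (M i (fun j _ => p j)) (r i) :=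
    ⟨wf.fix (fun i ih => nxt (M i ih) (r i)), fun i => wf.fix_eq _ _⟩
  have hspec : ∀ i, (p i).1 ∉ M i (fun j _ => p j) ∧ (p i).2 ∉ M i (fun j _ => p j) ∧
      (p i).1 + (p i).2 = r i := by
    intro i
    have h5 := hnxt (M i (fun j _ => p j)) (r i) (hM i (fun j _ => p j))
    have h6 := hp i
    clear_value nxt M
    rw [← h6] at h5
    exact h5
  refine ⟨fun i => (p i).1, fun i => (p i).2, fun i => (hspec i).2.2, ?_, ?_⟩
  · intro i j hij
    constructor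
    · intro h
      apply (hspec i).1
      right; left
      exact Set.mem_iUnion.2 ⟨⟨j, hij⟩, h⟩
    · intro h
      apply (hspec i).2.1
      right; right
      refine Set.mem_iUnion.2 ⟨⟨j, hij⟩, ?_⟩
      change (p i).2 + (p j).1 ∈ P
      rw [add_comm]
      exact h
  · intro i j hij
    constructor
    · intro h
      apply (hspec i).1
      left
      exact Set.mem_iUnion.2 ⟨⟨j, hij⟩, h⟩
    · intro h
      apply (hspec i).2.1
      left
      exact Set.mem_iUnion.2 ⟨⟨j, hij⟩, h⟩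

theorem cantorSet_nowhereDense : IsNowhereDense cantorSet := by
  unfold IsNowhereDense
  rw [isClosed_cantorSet.closure_eq]
  by_contra hne
  obtain ⟨x, hx⟩ := Set.nonempty_iff_ne_empty.2 hne
  have hx' : cantorSet ∈ 𝓝 x := mem_interior_iff_mem_nhds.1 hx
  obtain ⟨a, b, hab, hsub⟩ := mem_nhds_iff_exists_Ioo_subset.1 hx'
  have htd : IsTotallyDisconnected cantorSet := by
    have : TotallyDisconnectedSpace cantorSet :=
      cantorSetHomeomorphNatToBool.symm.totallyDisconnectedSpace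
    exact totallyDisconnectedSpace_subtype_iff.1 this
  have h1 := htd (Set.Ioo a b) hsub isPreconnected_Ioo
  have hax : a < x := hab.1
  have h2 : (a + x) / 2 ∈ Set.Ioo a b := ⟨by linarith, by linarith [hab.2]⟩
  have := h1 hab h2
  linarith

end Pool.Agent.Lib.MP_f722f0_gt
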