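import Mathlib
import Pool.Agent.Lib.MP_f722f0_gt.Constr

set_option autoImplicit false

open Set Topology Filter

namespace Pool.Agent.Lib.MP_f722f0_gt

/-- The code in the Cantor set of a set of natural numbers. -/
noncomputable def code (t : Set ℕ) : ℝ := by
  classical exact Subtype.val (cantorSetHomeomorphNatToBool.symm (fun n => decide (n ∈ t)))

theorem code_mem (t : Set ℕ) : code t ∈ cantorSet := by
  unfold code
  exact Subtype.property _

/-- The open sets of reals used for the cover. -/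
def WW (n : ℕ) : Set ℝ := {r | ∀ h : r ∈ cantorSet, cantorSetHomeomorphNatToBool ⟨r, h⟩ n = true}

theorem isOpen_WW (n : ℕ) : IsOpen (WW n) := by
  rw [← isClosed_compl_iff]
  have h1 : (WW n)ᶜ = Subtype.val '' {p : cantorSet | cantorSetHomeomorphNatToBool p n = false} := by
    ext r
    simp only [WW, Set.mem_compl_iff, Set.mem_image]
    constructor
    · intro h
      simp only [Set.mem_ofPred_eq, not_forall] at h
      obtain ⟨hr, h⟩ := h
      exact ⟨⟨r, hr⟩, by simpa using h, rfl⟩
    · rintro ⟨⟨r', hr'⟩, h, rfl⟩ h'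
      have := h' hr'
      simp only [Set.mem_ofPred_eq] at h
      rw [h] at this
      exact absurd this (by simp)
  rw [h1]
  refine isClosed_cantorSet.isClosedEmbedding_subtypeVal.isClosedMap _ ?_
  have hc : Continuous (fun p : cantorSet => cantorSetHomeomorphNatToBool p n) :=
    (continuous_apply n).comp cantorSetHomeomorphNatToBool.continuous
  exact isClosed_eq hc continuous_const

theorem mem_WW_code (t : Set ℕ) (n : ℕ) : code t ∈ WW n ↔ n ∈ t := by
  classical
  have h0 : ∀ h : code t ∈ cantorSet, cantorSetHomeomorphNatToBool ⟨code t, h⟩ n = decide (n ∈ t) := by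
    intro h
    have : (⟨code t, h⟩ : cantorSet) = cantorSetHomeomorphNatToBool.symm (fun n => decide (n ∈ t)) := by
      apply Subtype.ext
      rfl
    rw [this, Homeomorph.apply_symm_apply]
  constructor
  · intro h
    have h1 := h (code_mem t)
    rw [h0] at h1
    exact of_decide_eq_true h1
  · intro h hc
    rw [h0]
    exact decide_eq_true h

theorem mem_WW_of_notMem {r : ℝ} (h : r ∉ cantorSet) (n : ℕ) : r ∈ WW n := fun h' => absurd h' h

/-- Enumeration of the closed nowhere dense sets of reals by `Set ℕ`. -/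
theorem exists_enum_nowhereDense : ∃ C : Set ℕ → Set ℝ, (∀ B, IsNowhereDense (C B)) ∧
    ∀ N : Set ℝ, IsNowhereDense N → ∃ B, N ⊆ C B := by
  classical
  have hne : (TopologicalSpace.countableBasis ℝ).Nonempty := by
    by_contra h
    rw [Set.not_nonempty_iff_eq_empty] at h
    obtain ⟨b, hb, _⟩ := (TopologicalSpace.isBasis_countableBasis ℝ).exists_subset_of_mem_open
      (mem_univ (0 : ℝ)) isOpen_univ
    rw [h] at hb
    exact hb
  obtain ⟨e, he⟩ := (TopologicalSpace.countable_countableBasis ℝ).exists_eq_range hne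
  let C₀ : Set ℕ → Set ℝ := fun B => (⋃ n ∈ B, e n)ᶜ
  refine ⟨fun B => if IsNowhereDense (C₀ B) then C₀ B else ∅, ?_, ?_⟩
  · intro B
    by_cases h : IsNowhereDense (C₀ B)
    · simp only [h, if_true]
    · simp only [h, if_false]
      exact isNowhereDense_empty
  · intro N hN
    let B : Set ℕ := {n | e n ⊆ (closure N)ᶜ}
    have hC : C₀ B = closure N := by
      simp only [C₀]
      rw [compl_eq_comm]
      apply Set.Subset.antisymm
      · intro z hz
        obtain ⟨b, hb, hzb, hbN⟩ := (TopologicalSpace.isBasis_countableBasis ℝ).exists_subset_of_mem_open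
          hz isClosed_closure.isOpen_compl
        rw [he] at hb
        obtain ⟨n, rfl⟩ := hb
        simp only [Set.mem_iUnion]
        exact ⟨n, hbN, hzb⟩
      · intro z hz
        simp only [Set.mem_iUnion] at hz
        obtain ⟨n, hn, hz⟩ := hz
        exact hn hz
    refine ⟨B, ?_⟩
    have h1 : IsNowhereDense (C₀ B) := by
      rw [hC]; exact hN.closure
    simp only [h1, if_true]
    rw [hC]
    exact subset_closure

/-- Under CH there are two Luzin sets of reals whose product does not satisfy `Split(T, T)`. -/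
theorem exists_luzin_pair (CH : Cardinal.continuum.{0} = Cardinal.aleph 1) :
    ∃ X Y : Set ℝ, X.Nonempty ∧ Y.Nonempty ∧
      (∀ N : Set ℝ, IsNowhereDense N → (X ∩ N).Countable) ∧
      (∀ N : Set ℝ, IsNowhereDense N → (Y ∩ N).Countable) ∧
      ¬ SplitTauTau (Set.pi Set.univ ![X, Y] : Set (Fin 2 → ℝ)) := by
  classical
  obtain ⟨I, iLO, iWF, hIcard, hIc⟩ := Pool.Agent.Lib.MP_eb6644_gt.exists_omega1_order
  have hcard : Cardinal.mk I = Cardinal.mk (Set ℕ) := by
    rw [hIcard, Cardinal.mk_set, Cardinal.mk_nat, Cardinal.two_power_aleph0, CH]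
  obtain ⟨eA⟩ := Cardinal.eq.1 hcard
  obtain ⟨𝒯, h1, h2, h3, h4⟩ := exists_base hIc eA eA.surjective
  obtain ⟨t₀, ht₀, -⟩ := h3 univ
  obtain ⟨C, hC, hCN⟩ := exists_enum_nowhereDense
  let r : I → ℝ := fun i => if eA i ∈ 𝒯 then code (eA i) else code t₀
  have hr : ∀ i, ∃ t ∈ 𝒯, r i = code t := by
    intro i
    by_cases h : eA i ∈ 𝒯
    · exact ⟨eA i, h, by simp only [r, h, if_true]⟩
    · exact ⟨t₀, ht₀, by simp only [r, h, if_false]⟩
  have hr' : ∀ t ∈ 𝒯, ∃ i, r i = code t := by
    intro t ht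
    obtain ⟨i, hi⟩ := eA.surjective t
    refine ⟨i, ?_⟩
    have : eA i ∈ 𝒯 := by rw [hi]; exact ht
    simp only [r, this, if_true]
    rw [hi]
  obtain ⟨x, y, hxy, hne, hN⟩ := exists_pairs hIc r (fun i => C (eA i)) (fun i => hC _)
    cantorSet cantorSet_nowhereDense
  obtain ⟨i₀, -⟩ := hr' t₀ ht₀
  have hdiag : ∀ i j, x i + y j ∈ cantorSet → i = j := by
    intro i j h
    rcases lt_trichotomy i j with hij | hij | hij
    · exact absurd h (hne j i hij).2
    · exact hij
    · exact absurd h (hne i j hij).1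
  refine ⟨Set.range x, Set.range y, ⟨x i₀, i₀, rfl⟩, ⟨y i₀, i₀, rfl⟩, ?_, ?_, ?_⟩
  · intro N hNd
    obtain ⟨B, hB⟩ := hCN N hNd
    obtain ⟨i, rfl⟩ := eA.surjective B
    refine ((hIc i).image x).mono ?_
    rintro _ ⟨⟨j, rfl⟩, hj⟩
    refine ⟨j, ?_, rfl⟩
    by_contra hij
    exact (hN j i (not_lt.1 hij)).1 (hB hj)
  · intro N hNd
    obtain ⟨B, hB⟩ := hCN N hNd
    obtain ⟨i, rfl⟩ := eA.surjective B
    refine ((hIc i).image y).mono ?_
    rintro _ ⟨⟨j, rfl⟩, hj⟩
    refine ⟨j, ?_, rfl⟩
    by_contra hij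
    exact (hN j i (not_lt.1 hij)).2 (hB hj)
  · have hs : Continuous (fun z : (Set.pi Set.univ ![Set.range x, Set.range y] : Set (Fin 2 → ℝ)) =>
        (z : Fin 2 → ℝ) 0 + (z : Fin 2 → ℝ) 1) :=
      ((continuous_apply 0).comp continuous_subtype_val).add
        ((continuous_apply 1).comp continuous_subtype_val)
    refine not_splitTauTau 𝒯 h1 h2 h3 h4
      (fun n => (fun z : (Set.pi Set.univ ![Set.range x, Set.range y] : Set (Fin 2 → ℝ)) =>
        (z : Fin 2 → ℝ) 0 + (z : Fin 2 → ℝ) 1) ⁻¹' (WW n)) (fun n => (isOpen_WW n).preimage hs) ?_ ?_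
    · rintro ⟨z, hz⟩
      have hz0 : z 0 ∈ Set.range x := hz 0 (mem_univ _)
      have hz1 : z 1 ∈ Set.range y := hz 1 (mem_univ _)
      by_cases hc : z 0 + z 1 ∈ cantorSet
      · right
        obtain ⟨i, hi⟩ := hz0
        obtain ⟨j, hj⟩ := hz1
        have hij : i = j := hdiag i j (by rw [hi, hj]; exact hc)
        obtain ⟨t, ht, hrt⟩ := hr i
        refine ⟨t, ht, fun n => ?_⟩
        have : z 0 + z 1 = code t := by
          rw [← hi, ← hj, ← hij, hxy i, hrt]
        change z 0 + z 1 ∈ WW n ↔ n ∈ t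
        rw [this]
        exact mem_WW_code t n
      · left
        intro n
        exact mem_WW_of_notMem hc n
    · intro t ht
      obtain ⟨i, hi⟩ := hr' t ht
      refine ⟨⟨![x i, y i], ?_⟩, fun n => ?_⟩
      · intro k _
        fin_cases k
        · exact ⟨i, rfl⟩
        · exact ⟨i, rfl⟩
      · change x i + y i ∈ WW n ↔ n ∈ t
        rw [hxy i, hi]
        exact mem_WW_code t n

/-- The main theorem. -/
theorem main_theorem (CH : Cardinal.continuum.{0} = Cardinal.aleph 1) :
    ¬ ClosedUnderFiniteProducts SplitTauTau ∧ ¬ ClosedUnderFiniteProducts TauChooseGamma := by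
  obtain ⟨X, Y, hX, hY, hLX, hLY, hns⟩ := exists_luzin_pair CH
  have gX := tauChooseGamma_of_luzin X hX hLX
  have gY := tauChooseGamma_of_luzin Y hY hLY
  constructor
  · intro h
    apply hns
    apply h 2 ![X, Y]
    intro i
    fin_cases i
    · exact splitTauTau_of_tauChooseGamma gX
    · exact splitTauTau_of_tauChooseGamma gY
  · intro h
    apply hns
    apply splitTauTau_of_tauChooseGamma
    apply h 2 ![X, Y]
    intro i
    fin_cases i
    · exact gX
    · exact gY

end Pool.Agent.Lib.MP_f722f0_gt
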